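import Mathlib
import Pool.Agent.W2helper39.SP.Main
import Pool.Agent.Results.MP_70ba79_ag.SparseCurves

/-!
# The special sets of the curves of bounded complexity

`U` is the quasi-projective variety `{G = 0, Q ≠ 0}` (projective if `Q` is constant, affine if not),
with arbitrary singularities in the first part. For every number `m` there are five special sets of
`U`, the Zariski closures in `U` of (`Pool/Agent/W2helper39/SP/Defs.lean`)

`SpG m`: the images of the nonconstant morphisms from the multiplicative group given by Laurent
polynomials with at most `m` monomials (a part of `Sp_sab`);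

`SpHOde m`, `SpPOde m`: the images of the transcendental entire curves, and of the holomorphic maps
from the punctured disc with an essential singularity, whose coordinates satisfy linear differential
equations of order at most `m`, with coefficients meromorphic at infinity, or at the puncture;

`SpHSum m`, `SpPSum m`: the images of the transcendental entire curves whose coordinates are sums of
`m` functions with finitely many zeros, and of the holomorphic maps from the punctured disc with an
essential singularity whose coordinates are sums of `m` functions without zeros near the puncture.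

These are the parts of complexity `m` of the special sets `Sp_sab`, `Sp_h` and `Sp_p`. They all
coincide, for every `U` and `m`, and if `U` is smooth and of log general type then they are not all
of `U`, for every `m`: the implications (1) ⇒ (3), (4), (5) of Q1 for the curves of bounded
complexity. `DimGE`, `Irred`, `SmoothPair`, `LogGeneralType` are the definitions of
`Pool/Agent/Results/MP_70ba79_ag/SparseCurves.lean`.
-/

set_option autoImplicit false

namespace Pool.Agent.Results.MP_160ed4_ag.BoundedComplexity

open MvPolynomial
open Pool.Agent.Results.MP_70ba79_ag.SparseCurves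
open Pool.Agent.W2helper39.SP

/-- Let `m` be a number.

(1) For every quasi-projective variety `U = {G = 0, Q ≠ 0}` the five special sets coincide: the
Zariski closures in `U` of the union of the images of the nonconstant maps from the multiplicative
group given by Laurent polynomials with at most `m` monomials; of the holomorphic maps from the
punctured disc with an essential singularity (or the transcendental entire curves) whose coordinates
satisfy linear differential equations of order at most `m` with coefficients meromorphic at the
puncture (at infinity); and of the holomorphic maps from the punctured disc with an essential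
singularity (or the transcendental entire curves) whose coordinates are sums of `m` functions without
zeros near the puncture (with finitely many zeros).

(2) Let `X` be a smooth projective variety of dimension `N` with the equations `G j = 0`, `D` a
divisor with strict normal crossings, its components given by the forms `E i j`, which is the zero
set on `X` of the form `Q`, and let `U = X - D` be nonempty and of log general type. Then the special
sets of `U` in (1) are different from `U`. -/
theorem result (m : ℕ) :
    (∀ (M g : ℕ) (G : Fin g → MvPolynomial (Fin M) ℂ) (Q : MvPolynomial (Fin M) ℂ),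
      (∀ j, ∃ d, (G j).IsHomogeneous d) → (∃ d, Q.IsHomogeneous d) →
        Cl G Q (SpPOde m G Q) = Cl G Q (SpG m G Q) ∧
        Cl G Q (SpHOde m G Q) = Cl G Q (SpG m G Q) ∧
        Cl G Q (SpPSum m G Q) = Cl G Q (SpG m G Q) ∧
        Cl G Q (SpHSum m G Q) = Cl G Q (SpG m G Q)) ∧
    ∀ (N s g q w : ℕ) (G : Fin g → MvPolynomial (Fin (N + 1 + s)) ℂ) (e : Fin g → ℕ)
      (E : Fin q → Fin w → MvPolynomial (Fin (N + 1 + s)) ℂ) (d : Fin q → Fin w → ℕ)
      (Q : MvPolynomial (Fin (N + 1 + s)) ℂ) (δ : ℕ),
      (∀ j, (G j).IsHomogeneous (e j)) → (∀ i j, (E i j).IsHomogeneous (d i j)) → DimGE N G →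
      SmoothPair s G E → Irred G → LogGeneralType N G E d → Q.IsHomogeneous δ →
      (∀ z : Fin (N + 1 + s) → ℂ, z ≠ 0 → OnX G z →
        (aeval z Q ≠ 0 ↔ ∀ i, ∃ j, aeval z (E i j) ≠ 0)) → (Pts G Q).Nonempty →
        Cl G Q (SpG m G Q) ≠ Pts G Q ∧
        Cl G Q (SpPOde m G Q) ≠ Pts G Q ∧ Cl G Q (SpHOde m G Q) ≠ Pts G Q ∧
        Cl G Q (SpPSum m G Q) ≠ Pts G Q ∧ Cl G Q (SpHSum m G Q) ≠ Pts G Q := by
  refine ⟨fun M g G Q hG hQ => special hG hQ, ?_⟩
  intro N s g q w G e E d Q δ hG hE hdim hsm hirr hlgt hQh hQ hne
  obtain ⟨h1, h2, h3, h4⟩ := special (m := m) (G := G) (Q := Q) (fun j => ⟨e j, hG j⟩) ⟨δ, hQh⟩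
  rw [h1, h2, h3, h4]
  suffices h : Cl G Q (SpG m G Q) ≠ Pts G Q from ⟨h, h, h, h, h⟩
  obtain ⟨Φ, n, B, hn, ⟨x1, hx1, hx1Φ⟩, hmain⟩ :=
    (Pool.Agent.Results.MP_70ba79_ag.SparseCurves.result (k := ℂ)
      N s g q w m G e hG E d hE hdim hsm).2 hirr hlgt
  have hgm : Pool.Agent.W2helper39.BR.GmQ m G Q Φ :=
    Pool.Agent.W2helper39.BR.gmQ_of hG hE Q hQh (fun z hz hzX hzQ => (hQ z hz hzX).mp hzQ) Φ B hmain
  have hvan := vanish_of_gmQ hgm
  intro heq
  -- the form vanishes on all of `U`
  have hall : ∀ x ∈ Pts G Q, aeval x Φ = 0 := by
    intro x hx
    rw [← heq] at hx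
    exact hx.2 Φ ⟨n, hn⟩ hvan
  obtain ⟨x0, hx0, hx0G, hx0Q⟩ := hne
  obtain ⟨j, hj⟩ := Function.ne_iff.mp hx0
  rcases hirr Φ (Q * X j) (fun z hz => by
    by_cases hzQ : aeval z Q = 0
    · rw [map_mul, hzQ, zero_mul, mul_zero]
    by_cases hz0 : z = 0
    · rw [map_mul, aeval_X, hz0, Pi.zero_apply, mul_zero, mul_zero]
    · rw [hall z ⟨hz0, hz, hzQ⟩, zero_mul]) with h | h
  · exact hx1Φ (h x1 hx1)
  · have h5 := h x0 hx0G
    rw [map_mul, aeval_X] at h5
    exact mul_ne_zero hx0Q hj h5

end Pool.Agent.Results.MP_160ed4_ag.BoundedComplexity
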