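import Pool.Agent.R882.HL
import Pool.Agent.W2helper38.GG.Top

/-!
# The conditions (2)-(5) of the generalised Green-Griffiths-Lang conjecture imply (1) for the images
of towers over any variety with Zariski dense entire curves

Let `V 0 ⇢ V 1 ⇢ ... ⇢ V k` be a tower (`LinesTower`, `Pool/Agent/R882/HL.lean`) of varieties of
dimension `n ≥ 1`. Here `V k` is ANY variety such that the union of the entire curves (part (1)), or
of the images of elliptic curves (part (2)), is Zariski dense on its projective models. For instance
`V k` can be any variety with a generically finite dominant rational map from an abelian variety, or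
from a product of any variety with an elliptic curve (a K3 surface, a variety fibred in elliptic
curves, a uniruled variety, ...). Each `V i`, `i < k`, is (a component of) a smooth complete
intersection, of any codimension `q`, of hypersurfaces of multidegrees `(d_{l,a})`, `l = 1, ..., q`, in
the product of the projective lines with the coordinates `x_a`, `a = 1, ..., n + q`, with
`Σ_l d_{l,a} = m_a + 2`, and `V (i + 1)` is birational to the image of `V i` under the projection
which forgets one coordinate `x_{a0}`. It is assumed that `s i ≤ m_a + 1` for all `a ≠ a0`, for the
numbers `m_a` of `V i`, where `s i = s / (b 0 ⋯ b (i - 1))` and `b i` is the degree of `V i` over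
`V (i + 1)`.

Let `X` be any projective variety, and `V 0 ⇢ X` any dominant rational map of degree `r`, where the
above holds for `s = 2 r`. Nothing is assumed about the map (it need not be a quotient by a group and
has no relation to the tower). The theorem says that `X` is of general type if one of the conditions
(2)-(5) of the conjecture holds for `X`:

* `StronglyGeneral`: off a proper closed subset, all closed subvarieties of positive dimension are of
  general type, `Sp_alg(X) ≠ X`;
* `PseudoPicard`: a proper closed subset of `X` contains the images of all holomorphic maps from the
  punctured disc with an essential singularity, `Sp_p(X) ≠ X`;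
* `PseudoBrody`: a proper closed subset contains all nonconstant entire curves, `Sp_h(X) ≠ X`;
* `PseudoAbelian`, in part (1): a proper closed subset contains all nonconstant meromorphic images of
  the spaces `ℂ ^ g`;
* `PseudoElliptic`, in part (2): a proper closed subset contains the images of all nonconstant
  morphisms from elliptic curves to `X`; this follows from `Sp_sab(X) ≠ X`, because elliptic curves are
  semi-abelian varieties.

Proof. If `X` is not of general type and `V i ⇢ X` is a rational map then it factors through
`V i ⇢ V (i + 1)` (traces of residue forms, `Pool/Agent/R882`). So `X` is dominated by `V k`. The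
images in `X` of the entire curves of `V k` outside of a proper closed subset are entire curves (they
are not contracted, because their homogeneous coordinates satisfy algebraic equations over those
of `X`), and elliptic curves give entire curves by the parametrization of Weierstrass and Poincaré
(`Pool/Agent/Q95/SF/WeiB.lean`).

`K` and `L` are the function fields of `V 0` and `X`, and `x` is the generic point of `X` in
homogeneous coordinates, whose ratios generate `L`. `EntireDense`, `EllipticDense` are in
`Pool/Agent/W2helper38/GG/Gen.lean`, `PseudoElliptic` in `Pool/Agent/W2helper38/GG/Ell.lean`, the other
definitions are those of the starting repository.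
-/

set_option autoImplicit false
set_option linter.overlappingInstances false

open Module Pool.Agent.W602.GT
open Pool.Agent.TH466.QG (StronglyGeneral)
open Pool.Agent.Y221.BD (PseudoBrody)
open Pool.Agent.Y221.PD (PseudoPicard PseudoAbelian)
open Pool.Agent.R882.HL (LinesTower)
open Pool.Agent.W2helper38.GG

namespace Pool.Agent.Results.MP_160ed4_ag.ImagesOfLinesTowers

/-- **Images of towers in products of lines.** Let `K` be the function field of the first variety `V`
of a tower of smooth complete intersections of dimension `n ≥ 1` in products of projective lines, of
height `2 r`, over any variety with dense entire curves (part (1)) or with dense images of elliptic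
curves (part (2)), and let `V ⇢ X` be a dominant rational map of degree `r` to a projective variety
`X` with the function field `L` and the generic point `x`. Then each of the conditions (2)-(5) implies
that `X` is of general type. -/
theorem result {n : ℕ} (hn : 1 ≤ n) {K : Type} [Field K] [Algebra ℂ K]
    (hK : Algebra.trdeg ℂ K = (n : ℕ))
    (L : Type) [Field L] [Algebra ℂ L] [Algebra L K] [IsScalarTower ℂ L K]
    [FiniteDimensional L K] {M : ℕ} {x : Fin (M + 1) → L} (hx : x ≠ 0) (hgen : coords ℂ x = ⊤) :
    (LinesTower n (fun E _ _ => EntireDense E) K (2 * Module.finrank L K) →
      (StronglyGeneral ℂ x → GeneralType ℂ L n) ∧ (PseudoPicard x → GeneralType ℂ L n) ∧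
      (PseudoBrody x → GeneralType ℂ L n) ∧ (PseudoAbelian x → GeneralType ℂ L n)) ∧
    (LinesTower n (fun E _ _ => EllipticDense E) K (2 * Module.finrank L K) →
      (StronglyGeneral ℂ x → GeneralType ℂ L n) ∧ (PseudoPicard x → GeneralType ℂ L n) ∧
      (PseudoBrody x → GeneralType ℂ L n) ∧ (PseudoElliptic x → GeneralType ℂ L n)) := by
  have hL : Algebra.trdeg ℂ L = (n : ℕ) := Pool.Agent.Y184.NT.trdeg_below (K := K) hK
  exact ⟨fun h => of_entire hn hL
      (Pool.Agent.R882.HL.dichotomy hn (entire_descends reduces) hK L h) hx hgen,
    fun h => of_elliptic hn hL
      (Pool.Agent.R882.HL.dichotomy hn elliptic_descends hK L h) hx hgen⟩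

end Pool.Agent.Results.MP_160ed4_ag.ImagesOfLinesTowers
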