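import Mathlib
import Pool.Agent.N131.SR.Gm
import Pool.Agent.W2helper39.UI.Exp

/-!
# The special set of the multiplicative group and iterated linear differential equations

Let `U` be the complement of the hypersurface `Q = 0` in a complex projective algebraic set, where
`Q` is a form; `U` is projective if `Q` is constant. So `U` is any affine or projective variety, for
instance, with arbitrary singularities. Let `S` be the Zariski closure of the union of the images of
the nonconstant morphisms of the multiplicative group to `U`.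

For every number `m` there is a number `C` such that

`T_f(r) ≤ C (T(a_1, r) + ⋯ + T(a_m, r) + log r)`

for all `r ≥ 1` outside a set of finite measure, for **all** meromorphic functions `a_1, …, a_m` on the
plane and **all** entire curves `f` in `U` not contained in `S` which are given by iterated linear
differential equations of complexity at most `m` over `a_1, …, a_m`. Moreover `S` is the Zariski
closure of the union of the transcendental entire curves in `U` which are given by iterated linear
differential equations over rational functions, and also of the entire curves in `U` which are given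
by iterated linear differential equations over meromorphic coefficients and violate the inequality
for all `C` (this holds, for instance, for small coefficients, `T(a_i, r) = o(T_f(r))`).

Complexity (`Pool/Agent/W2helper39/UI/Defs.lean`): we start with the functions which are obtained from
the `a_i` and constants by at most `m` sums, products, inverses and derivatives, and we do at most `m`
steps, where in one step all sums and products are formed, and all meromorphic solutions `y` of linear
systems `y' = B y` of size `m` are adjoined whose coefficients have been obtained before. For instance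
`exp (exp (exp z))` has complexity at most `3` over the constants.

There are two versions of part (1). In the first one, `f` has homogeneous coordinates `g` (with common
zeros and poles) such that all `g_j` and `1 / Q(g)` have complexity at most `m`: then all regular
functions on the affine variety `U` have bounded complexity along `f`. In the second one, only the
affine coordinates `f_j / f_0` have complexity at most `m`; the curve `f` need not be contained in `U`,
and the inequality has in addition the truncated counting functions of the zeros of `Q(f)` and of the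
poles of the affine coordinates, where every zero is counted once.

The starting results `MP_2a5ae2_ag.IteratedLinearEquations` (iterated equations, one curve) and
`MP_160ed4_ag.UniformSpecialSet` (uniform, curves `P(G)` with the Wronskian determinant of `G`) are the
two ends of this theorem.
-/

set_option autoImplicit false

namespace Pool.Agent.Results.MP_160ed4_ag.IteratedSpecialSets

open MeasureTheory MvPolynomial ValueDistribution Filter
open scoped LinearAlgebra.Projectivization
open Pool.Agent.TH143.EL (Rep)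
open Pool.Agent.W602.GT (IsForm)
open Pool.Agent.Y377.IL (GmCurve)
open Pool.Agent.W2helper39.UI (Cx)

/-- The characteristic function of the curve with the homogeneous coordinates `f`: the mean of the
logarithm of the maximum norm over the circle of the radius `r`. -/
noncomputable def T {N : ℕ} (f : Fin (N + 1) → ℂ → ℂ) (r : ℝ) : ℝ :=
  Real.circleAverage (fun z => Real.log ‖fun j => f j z‖) 0 r

/-- The counting function of the zeros of `h`; every zero is counted once. -/
noncomputable def N₁ (h : ℂ → ℂ) (r : ℝ) : ℝ :=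
  ∑ᶠ z ∈ {z : ℂ | h z = 0 ∧ ‖z‖ ≤ r}, if z = 0 then Real.log r else Real.log (r / ‖z‖)

/-- An entire curve in the projective space of dimension `N`: entire functions without common
zeros. -/
structure Curve (N : ℕ) where
  f : Fin (N + 1) → ℂ → ℂ
  hol : ∀ j, Differentiable ℂ (f j)
  ne : ∀ z, ∃ j, f j z ≠ 0

variable {N m : ℕ}

/-- A form vanishes along the curve. -/
def Curve.On (c : Curve N) (F : MvPolynomial (Fin (N + 1)) ℂ) : Prop :=
  ∀ z, eval (fun j => c.f j z) F = 0

/-- The curve is contained in a set of points. -/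
def Curve.In (c : Curve N) (S : Set (ℙ ℂ (Fin (N + 1) → ℂ))) : Prop :=
  ∀ z x, Rep x (fun j => c.f j z) → x ∈ S

/-- The curve is a rational curve. -/
def Curve.Rational (c : Curve N) : Prop :=
  ∃ (h : ℂ → ℂ) (P : Fin (N + 1) → Polynomial ℂ), (∀ z, h z ≠ 0) ∧
    ∀ j z, c.f j z = h z * (P j).eval z

/-- The `a_i` are meromorphic functions on the plane, and the curve has homogeneous coordinates
`g_j = u f_j` such that the `g_j` and `1 / Q(g)` have complexity at most `m` over the `a_i`. -/
def Curve.Given (c : Curve N) (Q : MvPolynomial (Fin (N + 1)) ℂ) (a : Fin m → ℂ → ℂ) : Prop :=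
  (∀ i, Meromorphic (a i)) ∧ ∃ u : ℂ → ℂ, (∀ᶠ z in codiscrete ℂ, u z ≠ 0) ∧
    (∀ j, Cx a m fun z => u z * c.f j z) ∧ Cx a m fun z => (eval (fun j => u z * c.f j z) Q)⁻¹

/-- The `a_i` are meromorphic functions on the plane, and the affine coordinates of the curve have
complexity at most `m` over them. -/
def Curve.Affine (c : Curve N) (a : Fin m → ℂ → ℂ) : Prop :=
  (∀ i, Meromorphic (a i)) ∧ (∃ z, c.f 0 z ≠ 0) ∧ ∀ j, Cx a m fun z => c.f j z / c.f 0 z

/-- The inequality with the constant `C` and the additional term `F`: there is a set `E` of finite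
measure with `S(r) ≤ C (T(a_1, r) + ⋯ + T(a_m, r) + F(r) + log r)` for all `r ≥ 1` outside `E`. -/
def Bound (a : Fin m → ℂ → ℂ) (S F : ℝ → ℝ) (C : ℝ) : Prop :=
  ∃ E : Set ℝ, volume E < ⊤ ∧ ∀ r, 1 ≤ r → r ∉ E → S r ≤
    C * (∑ i, characteristic (a i) ⊤ r + F r + Real.log r)

/-- The Zariski closure of a set of points of the projective space. -/
def ZClosure (S : Set (ℙ ℂ (Fin (N + 1) → ℂ))) : Set (ℙ ℂ (Fin (N + 1) → ℂ)) :=
  {p | ∀ G : MvPolynomial (Fin (N + 1)) ℂ, IsForm G → (∀ x ∈ S, eval x.rep G = 0) →
    eval p.rep G = 0}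

/-- The special set of the nonconstant morphisms of the multiplicative group to the complement of
`Q = 0` in the algebraic set of `I`. -/
def SpGm (I : Ideal (MvPolynomial (Fin (N + 1)) ℂ)) (Q : MvPolynomial (Fin (N + 1)) ℂ) :
    Set (ℙ ℂ (Fin (N + 1) → ℂ)) :=
  ZClosure {x | ∃ p, GmCurve I Q p ∧ ∃ t, t ≠ 0 ∧ Rep x fun j => (p j).eval t}

/-- The special set of the transcendental entire curves in the complement of `Q = 0` in the algebraic
set of `I` which are given by iterated linear differential equations over rational functions. -/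
def SpRat (I : Ideal (MvPolynomial (Fin (N + 1)) ℂ)) (Q : MvPolynomial (Fin (N + 1)) ℂ) :
    Set (ℙ ℂ (Fin (N + 1) → ℂ)) :=
  ZClosure {x | ∃ (m : ℕ) (a : Fin m → ℂ → ℂ) (c : Curve N), c.Given Q a ∧
    (∀ i, ∃ P R : Polynomial ℂ, R ≠ 0 ∧ a i = fun z => P.eval z / R.eval z) ∧
    (∀ F ∈ I, IsForm F → c.On F) ∧ (∀ z, eval (fun j => c.f j z) Q ≠ 0) ∧ ¬ c.Rational ∧
      ∃ z, Rep x fun j => c.f j z}

/-- The special set of the entire curves in the complement of `Q = 0` in the algebraic set of `I` which
are given by iterated linear differential equations over meromorphic coefficients and violate the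
inequality for all constants. -/
def SpMov (I : Ideal (MvPolynomial (Fin (N + 1)) ℂ)) (Q : MvPolynomial (Fin (N + 1)) ℂ) :
    Set (ℙ ℂ (Fin (N + 1) → ℂ)) :=
  ZClosure {x | ∃ (m : ℕ) (a : Fin m → ℂ → ℂ) (c : Curve N), c.Given Q a ∧
    (∀ F ∈ I, IsForm F → c.On F) ∧ (∀ z, eval (fun j => c.f j z) Q ≠ 0) ∧
      (∀ C, ¬ Bound a (T c.f) (fun _ => 0) C) ∧ ∃ z, Rep x fun j => c.f j z}

theorem N₁_eq {h : ℂ → ℂ} {r : ℝ} (hr : 1 ≤ r) (hfin : {z : ℂ | h z = 0 ∧ ‖z‖ ≤ r}.Finite) :
    N₁ h r = N131.SR.Nb h r := by
  classical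
  have hF : ∀ z, z ∈ hfin.toFinset ↔ h z = 0 ∧ ‖z‖ ≤ r := fun z => by
    rw [Set.Finite.mem_toFinset]
    rfl
  rw [N131.SR.Nb_eq r hfin.toFinset hF]
  unfold N₁
  rw [finsum_mem_eq_finite_toFinset_sum _ hfin]
  have h1 : ∀ z ∈ hfin.toFinset, (if z = 0 then Real.log r else Real.log (r / ‖z‖)) =
      Real.log (r * ‖z‖⁻¹) + if z = 0 then Real.log r else 0 := by
    intro z _
    by_cases h : z = 0
    · simp [h]
    · simp [h, div_eq_mul_inv]
  rw [Finset.sum_congr rfl h1, Finset.sum_add_distrib, Finset.sum_ite_eq']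
  congr 1
  by_cases h0 : h 0 = 0
  · rw [if_pos ((hF 0).2 ⟨h0, by rw [norm_zero]; linarith⟩),
      Set.indicator_of_mem (show (0 : ℂ) ∈ {z : ℂ | h z = 0} from h0)]
    simp
  · rw [if_neg fun h2 => h0 ((hF 0).1 h2).1,
      Set.indicator_of_notMem (show (0 : ℂ) ∉ {z : ℂ | h z = 0} from h0)]
    simp

/-- The curve in the notation of the proof. -/
theorem Curve.exists_crv {c : Curve N} {Q : MvPolynomial (Fin (N + 1)) ℂ} {a : Fin m → ℂ → ℂ}
    (h : c.Given Q a) : ∃ c' : W2helper39.UI.Crv N m Q, c'.f = c.f ∧ c'.a = a := by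
  obtain ⟨h1, u, h2, h3, h4⟩ := h
  exact ⟨⟨c.f, c.hol, c.ne, a, h1, u, h2, h3, h4⟩, rfl, rfl⟩

/-- The curve in the notation of the proof. -/
theorem Curve.exists_aff {c : Curve N} {a : Fin m → ℂ → ℂ}
    (h : c.Affine a) : ∃ c' : W2helper39.UI.Aff N m, c'.f = c.f ∧ c'.a = a := by
  obtain ⟨h1, h2, h3⟩ := h
  exact ⟨⟨c.f, c.hol, c.ne, a, h1, h2, h3⟩, rfl, rfl⟩

theorem Curve.not_on {c : Curve N} {F : MvPolynomial (Fin (N + 1)) ℂ} (h : ¬ c.On F) :
    ∃ z, eval (fun j => c.f j z) F ≠ 0 := by
  unfold Curve.On at h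
  push Not at h
  exact h

theorem mem_SpGm {I : Ideal (MvPolynomial (Fin (N + 1)) ℂ)} {Q : MvPolynomial (Fin (N + 1)) ℂ}
    {v : Fin (N + 1) → ℂ} {x : ℙ ℂ (Fin (N + 1) → ℂ)} (hx : Rep x v)
    (h : ∀ F : MvPolynomial (Fin (N + 1)) ℂ, IsForm F →
      (∀ p : Fin (N + 1) → Polynomial ℂ, GmCurve I Q p → ∀ t, t ≠ 0 →
        eval (fun j => (p j).eval t) F = 0) → eval v F = 0) : x ∈ SpGm I Q := by
  intro G hG hS
  rw [TH600.LE.rep_form hx hG]
  apply h G hG
  intro p hp t ht
  by_cases hv : (fun j => (p j).eval t) = 0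
  · obtain ⟨m, hm⟩ := id hG
    rcases Nat.eq_zero_or_pos m with h0 | h0
    · subst h0
      obtain ⟨c, rfl⟩ := N131.SR.const_form hm
      obtain ⟨-, -, s, u, j, k, hs, hu, hsu⟩ := id hp
      rw [eval_C]
      have hne : (fun j => (p j).eval s) ≠ 0 := by
        intro h1
        apply hsu
        rw [show (p j).eval s = 0 from congrFun h1 j, show (p k).eval s = 0 from congrFun h1 k]
        ring
      have h2 := hS (Projectivization.mk ℂ _ hne) ⟨p, hp, s, hs, hne, rfl⟩
      rwa [eval_C] at h2
    · have h3 : (fun j : Fin (N + 1) => (p j).eval t) = fun j => (0 : ℂ) * (p j).eval t := by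
        conv_lhs => rw [hv]
        funext j
        simp
      rw [h3, Y377.IL.eval_scale hm, zero_pow h0.ne', zero_mul]
  · have hx2 : Rep (Projectivization.mk ℂ _ hv) (fun j => (p j).eval t) := ⟨hv, rfl⟩
    have h2 := hS _ ⟨p, hp, t, ht, hx2⟩
    rwa [TH600.LE.rep_form hx2 hG] at h2

/-- Bounds for rational coefficients. -/
theorem rational_of_bound {c : Curve N} {Q : MvPolynomial (Fin (N + 1)) ℂ} {a : Fin m → ℂ → ℂ}
    (h : c.Given Q a) (hr : ∀ i, ∃ P R : Polynomial ℂ, R ≠ 0 ∧ a i = fun z => P.eval z / R.eval z)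
    {C : ℝ} (hB : Bound a (T c.f) (fun _ => 0) C) : c.Rational := by
  obtain ⟨c', h1, h2⟩ := Curve.exists_crv h
  have h3 : ∀ i, ∃ K B : ℝ, 0 ≤ K ∧ ∀ r, 1 ≤ r → characteristic (a i) ⊤ r ≤ K * Real.log r + B := by
    intro i
    obtain ⟨P, R, -, hPR⟩ := hr i
    rw [hPR]
    exact W2helper39.UI.char_rat P R
  choose K B hK hKB using h3
  obtain ⟨h, P, -, h4, h5, -⟩ := W2helper39.UI.rat_main (c := c') (C := C) (κ := ∑ i, K i)
    (κ0 := ∑ i, B i) (by
      obtain ⟨E, hE, hb⟩ := hB
      refine ⟨E, hE, fun r hr hrE => ?_⟩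
      have h6 := hb r hr hrE
      rw [h1, h2]
      simp only [add_zero] at h6
      exact h6) (Finset.sum_nonneg fun i _ => hK i) (by
      intro r hr
      rw [h2, Finset.sum_mul, ← Finset.sum_add_distrib]
      exact Finset.sum_le_sum fun i _ => hKB i r hr)
  rw [h1] at h5
  exact ⟨h, P, h4, h5⟩

/-- The curves of the maps of the multiplicative group. -/
theorem exists_gm {I : Ideal (MvPolynomial (Fin (N + 1)) ℂ)} {Q : MvPolynomial (Fin (N + 1)) ℂ}
    {d : ℕ} (hQ : Q.IsHomogeneous d) {p₀ : Fin (N + 1) → Polynomial ℂ} (hp₀ : GmCurve I Q p₀)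
    {t : ℂ} (ht : t ≠ 0) {x : ℙ ℂ (Fin (N + 1) → ℂ)} (hx : Rep x fun j => (p₀ j).eval t) :
    ∃ (m : ℕ) (a : Fin m → ℂ → ℂ) (c : Curve N), c.Given Q a ∧
    (∀ i, ∃ P R : Polynomial ℂ, R ≠ 0 ∧ a i = fun z => P.eval z / R.eval z) ∧
    (∀ F ∈ I, IsForm F → c.On F) ∧ (∀ z, eval (fun j => c.f j z) Q ≠ 0) ∧ ¬ c.Rational ∧
      ∃ z, Rep x fun j => c.f j z := by
  obtain ⟨D, p, hDp, hp, hne⟩ := N131.SR.gm_reduce hQ hp₀
  have hev : (fun j => (p₀ j).eval t) = fun j => D.eval t * (p j).eval t := by
    funext j
    rw [hDp j, Polynomial.eval_mul]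
  have hDt : D.eval t ≠ 0 := by
    intro h1
    apply hx.1
    rw [hev]
    funext j
    rw [h1, zero_mul]
    rfl
  rw [hev, TH143.EL.rep_smul hDt] at hx
  obtain ⟨m, hm⟩ := W2helper39.UI.exists_exp hp
  obtain ⟨h1, h2⟩ := hm m le_rfl (Fin m) fun _ _ => 0
  refine ⟨m, fun _ _ => 0, ⟨fun j z => (p j).eval (Complex.exp z), fun j =>
    (p j).differentiable.comp Complex.differentiable_exp, fun z => hne _ (Complex.exp_ne_zero z)⟩,
    ⟨fun i z => MeromorphicAt.const 0 z, fun _ => 1, Eventually.of_forall fun _ => one_ne_zero,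
      fun j => ?_, ?_⟩, fun i => ⟨0, 1, one_ne_zero, by simp⟩, fun F hF hFh z => ?_, fun z => ?_,
    ?_, Complex.log t, ?_⟩
  · simpa only [one_mul] using h1 j
  · simpa only [one_mul] using h2
  · exact hp.2.1 _ (Complex.exp_ne_zero z) F hF hFh
  · exact hp.1 _ (Complex.exp_ne_zero z)
  · rintro ⟨h, P, h3, h4⟩
    exact W2helper39.UI.exp_not_rational hp h3 h4
  · simp only [Complex.exp_log ht]
    exact hx

/-- Let `Q` be a form, let `I` be an ideal and let `U` be the complement of `Q = 0` in the algebraic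
set of `I`.

(1) For every `m` there is `C` such that for all meromorphic functions `a_1, …, a_m` and all entire
curves `f` in this algebraic set which are contained neither in `Q = 0` nor in the Zariski closure of
the union of the images of the nonconstant morphisms of the multiplicative group to `U`:
`T_f(r) ≤ C (T(a_1, r) + ⋯ + T(a_m, r) + log r)` for all `r ≥ 1` outside a set of finite measure, if
`f` has homogeneous coordinates `g` such that the `g_j` and `1 / Q(g)` have complexity at most `m`
over the `a_i`; and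
`T_f(r) ≤ C (T(a_1, r) + ⋯ + T(a_m, r) + N₁(Q(f), r) + N₁(f_0, r) + log r)` for all `r ≥ 1` outside a
set of finite measure, if the affine coordinates `f_j / f_0` have complexity at most `m` over the
`a_i`.

(2) This closure is the Zariski closure of the union of the transcendental entire curves in `U` which
are given by iterated linear differential equations over rational functions, and it is the Zariski
closure of the union of the entire curves in `U` which are given by iterated linear differential
equations over meromorphic coefficients and violate the first inequality for all constants. -/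
theorem result {Q : MvPolynomial (Fin (N + 1)) ℂ} {d : ℕ} (hQ : Q.IsHomogeneous d)
    (I : Ideal (MvPolynomial (Fin (N + 1)) ℂ)) :
    (∀ m : ℕ, ∃ C : ℝ, ∀ (c : Curve N) (a : Fin m → ℂ → ℂ), (∀ F ∈ I, IsForm F → c.On F) →
      ¬ c.On Q → ¬ c.In (SpGm I Q) →
        (c.Given Q a → Bound a (T c.f) (fun _ => 0) C) ∧
        (c.Affine a → Bound a (T c.f)
          (fun r => N₁ (fun z => eval (fun j => c.f j z) Q) r + N₁ (c.f 0) r) C)) ∧
    SpRat I Q = SpGm I Q ∧ SpMov I Q = SpGm I Q := by
  have key : ∀ m : ℕ, ∃ C : ℝ, ∀ (c : Curve N) (a : Fin m → ℂ → ℂ), c.Given Q a →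
      (∀ F ∈ I, IsForm F → c.On F) → ¬ c.On Q → ¬ c.In (SpGm I Q) →
        Bound a (T c.f) (fun _ => 0) C := by
    intro m
    obtain ⟨C, hC⟩ := W2helper39.UI.gm_main hQ m I
    refine ⟨C, fun c a hg hI hq hS => ?_⟩
    obtain ⟨c', h1, h2⟩ := Curve.exists_crv hg
    rcases hC c' (by rw [h1]; exact hI) (by rw [h1]; exact Curve.not_on hq) with h | h
    · obtain ⟨E, hE, hb⟩ := h
      refine ⟨E, hE, fun r hr hrE => ?_⟩
      have h3 := hb r hr hrE
      rw [h1, h2] at h3
      simp only [add_zero]
      exact h3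
    · exfalso
      apply hS
      intro z x hx
      rw [h1] at h
      exact mem_SpGm hx fun F hF hp => h F hF hp z
  have key2 : ∀ m : ℕ, ∃ C : ℝ, ∀ (c : Curve N) (a : Fin m → ℂ → ℂ), c.Affine a →
      (∀ F ∈ I, IsForm F → c.On F) → ¬ c.On Q → ¬ c.In (SpGm I Q) →
        Bound a (T c.f)
          (fun r => N₁ (fun z => eval (fun j => c.f j z) Q) r + N₁ (c.f 0) r) C := by
    intro m
    obtain ⟨C, hC⟩ := W2helper39.UI.gm_aff hQ m I
    refine ⟨C, fun c a hg hI hq hS => ?_⟩
    obtain ⟨c', h1, h2⟩ := Curve.exists_aff hg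
    rcases hC c' (by rw [h1]; exact hI) (by rw [h1]; exact Curve.not_on hq) with h | h
    · obtain ⟨E, hE, hb⟩ := h
      refine ⟨E, hE, fun r hr hrE => ?_⟩
      have h3 := hb r hr hrE
      rw [h1, h2] at h3
      have h4 : N₁ (fun z => eval (fun j => c.f j z) Q) r =
          N131.SR.Nb (fun z => eval (fun j => c.f j z) Q) r :=
        N₁_eq hr (N131.SR.zeros_finite (N131.SR.form_diff c.hol Q) (Curve.not_on hq) r)
      have h5 : N₁ (c.f 0) r = N131.SR.Nb (c.f 0) r :=
        N₁_eq hr (N131.SR.zeros_finite (c.hol 0) hg.2.1 r)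
      simp only
      rw [h4, h5, ← add_assoc]
      exact h3
    · exfalso
      apply hS
      intro z x hx
      rw [h1] at h
      exact mem_SpGm hx fun F hF hp => h F hF hp z
  refine ⟨fun m => ?_, ?_, ?_⟩
  · obtain ⟨C1, hC1⟩ := key m
    obtain ⟨C2, hC2⟩ := key2 m
    have mono : ∀ (a : Fin m → ℂ → ℂ) (S F : ℝ → ℝ) (C C' : ℝ), C ≤ C' →
        (∀ r, 1 ≤ r → 0 ≤ F r) → Bound a S F C → Bound a S F C' := by
      rintro a S F C C' hCC hF ⟨E, hE, hb⟩
      refine ⟨E, hE, fun r hr hrE => (hb r hr hrE).trans ?_⟩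
      apply mul_le_mul_of_nonneg_right hCC
      have h1 : 0 ≤ ∑ i, characteristic (a i) ⊤ r :=
        Finset.sum_nonneg fun i _ => characteristic_nonneg hr
      have h2 := hF r hr
      have h3 := Real.log_nonneg hr
      linarith
    refine ⟨max C1 C2, fun c a hI hq hS => ⟨fun hg => ?_, fun hg => ?_⟩⟩
    · exact mono a _ _ C1 _ (le_max_left _ _) (fun _ _ => le_rfl) (hC1 c a hg hI hq hS)
    · refine mono a _ _ C2 _ (le_max_right _ _) (fun r hr => ?_) (hC2 c a hg hI hq hS)
      rw [N₁_eq hr (N131.SR.zeros_finite (N131.SR.form_diff c.hol Q) (Curve.not_on hq) r),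
        N₁_eq hr (N131.SR.zeros_finite (c.hol 0) hg.2.1 r)]
      exact add_nonneg (N131.SR.Nb_nonneg hr) (N131.SR.Nb_nonneg hr)
  · apply Set.Subset.antisymm
    · intro x hx G hG hGS
      apply hx G hG
      rintro x' ⟨m, a, c, hg, hr, hI, hq, hB, z, hz⟩
      by_cases hS : c.In (SpGm I Q)
      · exact hS z x' hz G hG hGS
      · obtain ⟨C, hC⟩ := key m
        exact absurd (rational_of_bound hg hr (hC c a hg hI (fun h => hq 0 (h 0)) hS)) hB
    · intro x hx G hG hGS
      apply hx G hG
      rintro x' ⟨p₀, hp₀, t, ht, hx'⟩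
      exact hGS x' (exists_gm hQ hp₀ ht hx')
  · apply Set.Subset.antisymm
    · intro x hx G hG hGS
      apply hx G hG
      rintro x' ⟨m, a, c, hg, hI, hq, hB, z, hz⟩
      by_cases hS : c.In (SpGm I Q)
      · exact hS z x' hz G hG hGS
      · obtain ⟨C, hC⟩ := key m
        exact absurd (hC c a hg hI (fun h => hq 0 (h 0)) hS) (hB C)
    · intro x hx G hG hGS
      apply hx G hG
      rintro x' ⟨p₀, hp₀, t, ht, hx'⟩
      obtain ⟨m, a, c, hg, hr, hI, hq, hB, hz⟩ := exists_gm hQ hp₀ ht hx'
      exact hGS x' ⟨m, a, c, hg, hI, hq, fun C hC => hB (rational_of_bound hg hr hC), hz⟩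

end Pool.Agent.Results.MP_160ed4_ag.IteratedSpecialSets
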