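import Pool.Agent.W2helper38.GG.Open

/-!
# The conditions (2)-(5) of the generalised Green-Griffiths-Lang conjecture imply (1) for the affine
images of open towers

An open tower (`OpenTower`, `Pool/Agent/R882/HO.lean`) is a sequence of generically finite maps
`V 0 ⇢ V 1 ⇢ ... ⇢ V k` of open varieties of dimension `n ≥ 1`. Here `V k` is any open variety which
is covered by images of the multiplicative group (`GmCovered`; for example a torus `(ℂ^*) ^ n`, the
product of any open variety with the affine line or with `ℂ^*`, or an image of such a product), and each
`V i`, `i < k`, is birational to a component of the set of common zeros in a torus `(ℂ^*) ^ (n + q)`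
of a system `f` of Laurent polynomials which is nondegenerate in the sense of Khovanskii, with
arbitrary Newton polytopes; the boundary of `V i` consists of the prime divisors for which the vector
of the orders of the coordinates is in a given set `S` (if `S` contains all nonzero vectors then `V i`
is the subvariety of the torus itself); `V (i + 1)` is birational to the image of `V i` under
monomials `t l = x ^ (w l)`, where `ℂ(V i) = ℂ(V (i + 1))(y)` for a monomial `y = x ^ v`, and the
boundary of `V i` is the preimage of the boundary of `V (i + 1)`. Let `b i` be the degree of `V i`
over `V (i + 1)`. It is assumed that there are columns for `s i = s / (b 0 ⋯ b (i - 1))`: for each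
divisor `c < b i` of `b i` an `M` with `s i ≤ c (M + 1)` such that the `u + j v` and the
`u + j v + M w l`, `j < c`, satisfy the inequalities of the Newton polytopes for all integral vectors,
and the inequalities of the Fine interior for the vectors which are not in `S` (`InPoly`).

Let `X` be any affine variety, or any open subset `G l ≠ 0` of an affine variety, with the generic
point `x` (`Pts G x` is the set of its complex points), and let `V 0 → X` be any dominant rational
map of degree `r`, where there are columns for `s = 2 r`, such that the boundary of `V 0` is the
preimage of the boundary of `X`. The map is arbitrary otherwise: it need not be a quotient by a group,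
and it has no relation to the tower.

The theorem: `X` is of logarithmic general type, or each of the following sets is Zariski dense in
`X`: the union of the closed subvarieties of positive dimension which are not of logarithmic general
type (`NonGeneralPoints`), the union of the images of the holomorphic maps from the punctured disc
with an essential singularity (`PuncturedPoints`), the union of the images of the nonconstant entire
curves (`EntirePoints`), and the union of the images of the nonconstant morphisms from the
multiplicative group (`TorusPoints`). So each of the conditions (2)-(5) of the conjecture implies (1)
for `X`. (The multiplicative group is a semi-abelian variety, so the last set is contained in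
`Sp_sab(X)`.)

Proof. If `X` is not of logarithmic general type and `V i → X` is a rational map as above, then it
factors through `V i ⇢ V (i + 1)` (traces of residue forms, `Pool/Agent/R882`). So `X` is dominated by
`V k`, and the coordinate functions of `X` and the inverses of the `G l` are Laurent polynomials in a
coordinate `t` over the function field of a variety `Y` of dimension `n - 1`. Specialization to
complex points of `Y` (Nullstellensatz) gives the curves.

The starting file `NondegenerateFiveConditions` treats the nondegenerate complete intersections
themselves.
-/

set_option autoImplicit false
set_option linter.overlappingInstances false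

namespace Pool.Agent.Results.MP_160ed4_ag.OpenTowerImages

open MvPolynomial FF Pool.Agent.Y199.NN Pool.Agent.Y199.NG
open Pool.Agent.W602.GT (LogGeneralType)
open Pool.Agent.R882.HO (OpenTower)
open Pool.Agent.W2helper38.GG (GmCovered)

/-- **Affine images of open towers.** Let `K`, `B` be the function field and the boundary of the first
variety `V` of an open tower of dimension `n ≥ 1` with columns for `2 r`, over any open variety covered
by images of the multiplicative group. Let `X = Pts G x` be an open subset `G l ≠ 0` of an affine
variety with the generic point `x` and the function field `L`, and let `V → X` be a dominant
rational map of degree `r` such that the boundary of `V` is the preimage of the boundary of `X`. Then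
`X` is of logarithmic general type, or the special sets of the conditions (2)-(5) are all equal to
`X`. -/
theorem result {n N : ℕ} (hn : 1 ≤ n) {K : Type} [Field K] [Algebra ℂ K]
    (hK : Algebra.trdeg ℂ K = (n : ℕ)) {B : Place ℂ K → Prop}
    (L : Type) [Field L] [Algebra ℂ L] [Algebra L K] [IsScalarTower ℂ L K]
    [FiniteDimensional L K] {κ : Type} [Finite κ] {G : κ → MvPolynomial (Fin N) ℂ}
    {x : Fin N → L} (hgen : IntermediateField.adjoin ℂ (Set.range x) = ⊤)
    (hG : ∀ l, aeval x (G l) ≠ 0)
    (hB : ∀ (P : Place ℂ L) (Q : Place ℂ K) (e : ℕ), Over Q P e → (Boundary G x P ↔ B Q))
    (h : OpenTower n (fun E _ _ BE => GmCovered n E BE) K B (2 * Module.finrank L K)) :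
    LogGeneralType ℂ L n (Boundary G x) ∨
    (Zcl (Pts G x) (NonGeneralPoints G x) = Pts G x ∧
      Zcl (Pts G x) (PuncturedPoints (Pts G x)) = Pts G x ∧
      Zcl (Pts G x) (EntirePoints (Pts G x)) = Pts G x ∧
      Zcl (Pts G x) (TorusPoints (Pts G x)) = Pts G x) :=
  Pool.Agent.W2helper38.GG.open_special hn hK hgen hG hB h

end Pool.Agent.Results.MP_160ed4_ag.OpenTowerImages
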